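import Pool.Agent.Helper18.KS3.Frac

/-!
# KS construction, Part III: avoidance (Lemma 4)
-/

set_option autoImplicit false

open Finset

namespace Pool.Agent.Helper18.KS3

/-- pairs whose numerator is a multiple of `r` are few -/
theorem NN_dvd_card {S : Set ℝ} {x : ℝ} {D E r : ℕ} (hD : D ≤ r) (hr : r < 2 * D) :
    ((NN S x D E).filter fun p => r ∣ p.1).card ≤ E := by
  classical
  have h : ((NN S x D E).filter fun p => r ∣ p.1).card ≤ (Finset.Ico E (2 * E)).card := by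
    refine Finset.card_le_card_of_injOn (fun p => p.2) ?_ ?_
    · intro p hp
      have hp' := Finset.mem_filter.1 (Finset.mem_coe.1 hp)
      exact Finset.mem_coe.2 (Finset.mem_Ico.2 (mem_NN.1 hp'.1).2.1)
    · intro p hp q hq hpq
      have key : ∀ p ∈ ((NN S x D E).filter fun p => r ∣ p.1), p.1 = r := by
        intro p hp
        obtain ⟨h1, ⟨c, hc⟩⟩ := Finset.mem_filter.1 hp
        have h2 := (mem_NN.1 h1).1
        rcases Nat.lt_or_ge c 2 with h3 | h3
        · interval_cases c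
          · omega
          · omega
        · have : r * 2 ≤ r * c := Nat.mul_le_mul_left r h3
          omega
      exact Prod.ext ((key p (Finset.mem_coe.1 hp)).trans (key q (Finset.mem_coe.1 hq)).symm) hpq
  simpa [two_mul] using h

/-- the reduced fraction `(c' b) / (c'' r)` -/
def redF (r b : ℕ) (p : ℕ × ℕ) : ℕ × ℕ × ℕ :=
  (p.1 * b / Nat.gcd (p.1 * b) p.2, p.2 / Nat.gcd (p.1 * b) p.2 * r, r)

/-- Lemma 4: forbidden primes of one cell -/
theorem avoid {S : Set ℝ} {M k k0 Θ y0 : ℝ} (hS : Cov S M k) (hk : 0 ≤ k) (hk0 : 0 ≤ k0)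
    (hy0 : 0 < y0) {D E : ℕ} (hD : 0 < D) (hE : 0 < E) (F : Finset ℕ) (b : ℕ → ℕ) (x : ℕ → ℝ)
    (hF : ∀ r ∈ F, r.Prime ∧ D ≤ r ∧ r < 2 * D)
    (hb : ∀ r ∈ F, E ≤ b r ∧ b r < 2 * E ∧ Nat.Coprime r (b r))
    (hx : ∀ r ∈ F, 0 < x r ∧ y0 ≤ x r * r / b r ∧ x r * r / b r ≤ y0 * (1 + k0))
    (hN : ∀ r ∈ F, Θ ≤ ((NN S (x r) D E).card : ℝ)) :
    (F.card : ℝ) * (Θ - E) ≤
      M * ((1 + ((1 + k) * (1 + k0) - 1) * ((4 * D * E : ℕ) * (4 * D * E : ℕ))) *
        Nat.log 2 (4 * D * E)) := by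
  classical
  obtain ⟨T, hT, hT0, hT'⟩ := hS
  set P : ℕ → Finset (ℕ × ℕ) := fun r => (NN S (x r) D E).filter fun p => ¬ r ∣ p.1 with hP
  set Q : Finset ((r : ℕ) × (ℕ × ℕ)) := F.sigma fun r => P r with hQ
  -- many tuples
  have h1 : (F.card : ℝ) * (Θ - E) ≤ (Q.card : ℝ) := by
    rw [hQ, Finset.card_sigma]
    push_cast
    calc (F.card : ℝ) * (Θ - E) = ∑ _r ∈ F, (Θ - E) := by
          rw [Finset.sum_const, nsmul_eq_mul]
      _ ≤ ∑ r ∈ F, ((P r).card : ℝ) := by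
          refine Finset.sum_le_sum fun r hr => ?_
          have h2 := Finset.card_filter_add_card_filter_not (s := NN S (x r) D E)
            (fun p => r ∣ p.1)
          have h3 := NN_dvd_card (S := S) (x := x r) (E := E) (hF r hr).2.1 (hF r hr).2.2
          have h4 := hN r hr
          have h2' : ((((NN S (x r) D E).filter fun p => r ∣ p.1).card : ℕ) : ℝ) + ((P r).card : ℝ) =
              ((NN S (x r) D E).card : ℝ) := by exact_mod_cast h2
          have h3' : ((((NN S (x r) D E).filter fun p => r ∣ p.1).card : ℕ) : ℝ) ≤ E := by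
            exact_mod_cast h3
          linarith
  -- few tuples over one window
  set W : ℝ := (1 + ((1 + k) * (1 + k0) - 1) * ((4 * D * E : ℕ) * (4 * D * E : ℕ))) *
        Nat.log 2 (4 * D * E) with hW
  have hWn : 0 ≤ W := by
    have : 0 ≤ (1 + k) * (1 + k0) - 1 := by nlinarith
    positivity
  have h2 : ∀ z ∈ T, ((Q.filter fun q => z ≤ x q.1 * q.2.1 / q.2.2 ∧
      x q.1 * q.2.1 / q.2.2 ≤ z * (1 + k)).card : ℝ) ≤ W := by
    intro z hz
    set Qz := Q.filter fun q => z ≤ x q.1 * q.2.1 / q.2.2 ∧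
      x q.1 * q.2.1 / q.2.2 ≤ z * (1 + k) with hQz
    have hz0 := hT0 z hz
    -- facts about one tuple
    have fact : ∀ q ∈ Qz, q.1 ∈ F ∧ q.2 ∈ NN S (x q.1) D E ∧ ¬ q.1 ∣ q.2.1 ∧
        z ≤ x q.1 * q.2.1 / q.2.2 ∧ x q.1 * q.2.1 / q.2.2 ≤ z * (1 + k) := by
      intro q hq
      obtain ⟨h3, h4, h5⟩ := Finset.mem_filter.1 hq
      obtain ⟨h6, h7⟩ := Finset.mem_sigma.1 h3
      obtain ⟨h8, h9⟩ := Finset.mem_filter.1 h7
      exact ⟨h6, h8, h9, h4, h5⟩
    set img : Finset (ℕ × ℕ × ℕ) := Qz.image fun q => redF q.1 (b q.1) q.2 with himg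
    have hinj : Set.InjOn (fun q : (r : ℕ) × (ℕ × ℕ) => redF q.1 (b q.1) q.2) Qz := by
      rintro ⟨r, p⟩ hq ⟨r', p'⟩ hq' heq
      obtain ⟨f1, f2, f3, -, -⟩ := fact _ (Finset.mem_coe.1 hq)
      obtain ⟨g1, g2, g3, -, -⟩ := fact _ (Finset.mem_coe.1 hq')
      simp only at f1 f2 f3 g1 g2 g3
      simp only [redF, Prod.mk.injEq] at heq
      obtain ⟨e1, e2, e3⟩ := heq
      subst e3
      have hr0 : 0 < r := (hF r f1).1.pos
      have hb0 : 0 < b r := by have := (hb r f1).1; omega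
      obtain ⟨⟨a1, a2⟩, ⟨a3, a4⟩, a5, -⟩ := mem_NN.1 f2
      obtain ⟨⟨c1, c2⟩, ⟨c3, c4⟩, c5, -⟩ := mem_NN.1 g2
      have e4 := Nat.eq_of_mul_eq_mul_right hr0 e2
      have d1 : Nat.gcd (p.1 * b r) p.2 ∣ p.1 * b r := Nat.gcd_dvd_left _ _
      have d2 : Nat.gcd (p.1 * b r) p.2 ∣ p.2 := Nat.gcd_dvd_right _ _
      have d3 : Nat.gcd (p'.1 * b r) p'.2 ∣ p'.1 * b r := Nat.gcd_dvd_left _ _
      have d4 : Nat.gcd (p'.1 * b r) p'.2 ∣ p'.2 := Nat.gcd_dvd_right _ _
      have m1 := Nat.div_mul_cancel d1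
      have m2 := Nat.div_mul_cancel d2
      have m3 := Nat.div_mul_cancel d3
      have m4 := Nat.div_mul_cancel d4
      have e5 : p.1 * b r * p'.2 = p'.1 * b r * p.2 := by
        calc p.1 * b r * p'.2 = (p.1 * b r / Nat.gcd (p.1 * b r) p.2 * Nat.gcd (p.1 * b r) p.2) *
              (p'.2 / Nat.gcd (p'.1 * b r) p'.2 * Nat.gcd (p'.1 * b r) p'.2) := by rw [m1, m4]
          _ = (p'.1 * b r / Nat.gcd (p'.1 * b r) p'.2 * Nat.gcd (p'.1 * b r) p'.2) *
              (p.2 / Nat.gcd (p.1 * b r) p.2 * Nat.gcd (p.1 * b r) p.2) := by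
              rw [e1, ← e4]; ring
          _ = p'.1 * b r * p.2 := by rw [m3, m2]
      have e6 : p.1 * p'.2 = p'.1 * p.2 := by
        apply Nat.eq_of_mul_eq_mul_left hb0
        calc b r * (p.1 * p'.2) = p.1 * b r * p'.2 := by ring
          _ = p'.1 * b r * p.2 := e5
          _ = b r * (p'.1 * p.2) := by ring
      have e7 : p = p' := frac_ne (by omega) a5 c5 e6
      subst e7
      rfl
    have hcard : img.card = Qz.card := Finset.card_image_of_injOn hinj
    rw [← hcard]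
    have h3 := fracSet_card (z := z / (y0 * (1 + k0))) (k := (1 + k) * (1 + k0) - 1)
      (by positivity) (by nlinarith) (A1 := 4 * D * E) (A2 := 4 * D * E) img ?_
    · exact h3
    · intro t ht
      obtain ⟨⟨r, p⟩, hq, rfl⟩ := Finset.mem_image.1 ht
      obtain ⟨f1, f2, f3, f4, f5⟩ := fact _ hq
      simp only at f1 f2 f3 f4 f5
      obtain ⟨⟨a1, a2⟩, ⟨a3, a4⟩, a5, -⟩ := mem_NN.1 f2
      obtain ⟨rp, r1, r2⟩ := hF r f1
      obtain ⟨b1, b2, b3⟩ := hb r f1
      obtain ⟨x0, x1, x2⟩ := hx r f1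
      have hp1 : 0 < p.1 := by omega
      have hp2 : 0 < p.2 := by omega
      have hb0 : 0 < b r := by omega
      set g := Nat.gcd (p.1 * b r) p.2 with hg
      have hg0 : 0 < g := Nat.gcd_pos_of_pos_right _ hp2
      have d1 : g ∣ p.1 * b r := Nat.gcd_dvd_left _ _
      have d2 : g ∣ p.2 := Nat.gcd_dvd_right _ _
      have m1 := Nat.div_mul_cancel d1
      have m2 := Nat.div_mul_cancel d2
      have hu : 0 < p.1 * b r / g := Nat.div_pos (Nat.le_of_dvd (by positivity) d1) hg0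
      have hv : 0 < p.2 / g := Nat.div_pos (Nat.le_of_dvd hp2 d2) hg0
      have rc : Nat.Coprime (p.1 * b r) r := by
        apply Nat.Coprime.mul_left
        · exact ((Nat.Prime.coprime_iff_not_dvd rp).2 f3).symm
        · exact b3.symm
      have uc : Nat.Coprime (p.1 * b r / g) r :=
        Nat.Coprime.coprime_dvd_left (Nat.div_dvd_of_dvd d1) rc
      have uv : Nat.Coprime (p.1 * b r / g) (p.2 / g) := Nat.coprime_div_gcd_div_gcd hg0
      have hle1 : p.1 * b r / g ≤ 4 * D * E := by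
        refine (Nat.div_le_self _ _).trans ?_
        calc p.1 * b r ≤ (2 * D) * (2 * E) := Nat.mul_le_mul a2.le b2.le
          _ = 4 * D * E := by ring
      have hle2 : p.2 / g * r ≤ 4 * D * E := by
        calc p.2 / g * r ≤ p.2 * r := Nat.mul_le_mul_right _ (Nat.div_le_self _ _)
          _ ≤ (2 * E) * (2 * D) := Nat.mul_le_mul a4.le r2.le
          _ = 4 * D * E := by ring
      have hval : ((p.1 * b r / g : ℕ) : ℝ) / ((p.2 / g * r : ℕ) : ℝ) =
          (x r * p.1 / p.2) / (x r * r / b r) := by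
        have hgR : (0 : ℝ) < g := by exact_mod_cast hg0
        have hp1R : (0 : ℝ) < p.1 := by exact_mod_cast hp1
        have hp2R : (0 : ℝ) < p.2 := by exact_mod_cast hp2
        have hbR : (0 : ℝ) < b r := by exact_mod_cast hb0
        have hrR : (0 : ℝ) < r := by exact_mod_cast rp.pos
        have m1' : ((p.1 * b r / g : ℕ) : ℝ) * g = p.1 * b r := by exact_mod_cast m1
        have m2' : ((p.2 / g : ℕ) : ℝ) * g = p.2 := by exact_mod_cast m2
        have m1'' : ((p.1 * b r / g : ℕ) : ℝ) = p.1 * b r / g := by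
          rw [eq_div_iff hgR.ne', m1']
        have m2'' : ((p.2 / g : ℕ) : ℝ) = p.2 / g := by
          rw [eq_div_iff hgR.ne', m2']
        rw [Nat.cast_mul, m1'', m2'']
        field_simp
      have hw0 : 0 < x r * r / b r := lt_of_lt_of_le hy0 x1
      refine ⟨hu, Nat.mul_pos hv rp.pos, hle1, hle2, Nat.Coprime.mul_right uv uc, ?_, ?_, rp,
        Dvd.intro_left _ rfl⟩
      · show z / (y0 * (1 + k0)) ≤ ((p.1 * b r / g : ℕ) : ℝ) / ((p.2 / g * r : ℕ) : ℝ)
        rw [hval]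
        gcongr
      · show ((p.1 * b r / g : ℕ) : ℝ) / ((p.2 / g * r : ℕ) : ℝ) ≤ _
        rw [hval]
        calc (x r * p.1 / p.2) / (x r * r / b r) ≤ z * (1 + k) / y0 := by gcongr
          _ = z / (y0 * (1 + k0)) * (1 + ((1 + k) * (1 + k0) - 1)) := by
            have : (1 + k0) ≠ 0 := by positivity
            field_simp
            ring
  -- conclusion
  have hsub : Q ⊆ T.biUnion fun z => Q.filter fun q => z ≤ x q.1 * q.2.1 / q.2.2 ∧
      x q.1 * q.2.1 / q.2.2 ≤ z * (1 + k) := by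
    intro q hq
    have h3 := (Finset.mem_sigma.1 hq).2
    have h4 := (Finset.mem_filter.1 h3).1
    obtain ⟨z, hz, h5, h6⟩ := hT' _ (mem_NN.1 h4).2.2.2
    exact Finset.mem_biUnion.2 ⟨z, hz, Finset.mem_filter.2 ⟨hq, h5, h6⟩⟩
  calc (F.card : ℝ) * (Θ - E) ≤ (Q.card : ℝ) := h1
    _ ≤ ∑ z ∈ T, ((Q.filter fun q => z ≤ x q.1 * q.2.1 / q.2.2 ∧
      x q.1 * q.2.1 / q.2.2 ≤ z * (1 + k)).card : ℝ) := by
        have := (Finset.card_le_card hsub).trans Finset.card_biUnion_le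
        exact_mod_cast this
    _ ≤ ∑ _z ∈ T, W := Finset.sum_le_sum h2
    _ = T.card * W := by rw [Finset.sum_const, nsmul_eq_mul]
    _ ≤ M * W := mul_le_mul_of_nonneg_right hT hWn

end Pool.Agent.Helper18.KS3
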