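import Mathlib

/-!
# KS construction, Part III: counting fractions, avoidance (project KS, MP_768c9c)

A set `S` of positive reals is covered by `M` intervals `[z, z(1+k)]`.
-/

set_option autoImplicit false

open Finset

namespace Pool.Agent.Helper18.KS3

/-- separated values in an interval -/
theorem sep_card {ι : Type*} (F : Finset ι) (v : ι → ℝ) {z L δ : ℝ} (hδ : 0 < δ) (hL : 0 ≤ L)
    (h1 : ∀ p ∈ F, z ≤ v p ∧ v p ≤ z + L)
    (h2 : ∀ p ∈ F, ∀ q ∈ F, p ≠ q → v q ≤ v p → v q + δ ≤ v p) :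
    (F.card : ℝ) ≤ 1 + L / δ := by
  classical
  set φ : ι → ℕ := fun p => ⌊(v p - z) / δ⌋₊ with hφ
  have hn : ∀ p ∈ F, 0 ≤ (v p - z) / δ := fun p hp => div_nonneg (by linarith [(h1 p hp).1]) hδ.le
  have key : ∀ p ∈ F, ∀ q ∈ F, p ≠ q → v q ≤ v p → φ p ≠ φ q := by
    intro p hp q hq hpq hv heq
    have h3 := h2 p hp q hq hpq hv
    have h4 : (v q - z) / δ + 1 ≤ (v p - z) / δ := by
      rw [div_add_one hδ.ne', div_le_div_iff_of_pos_right hδ]
      linarith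
    have h5 : φ q + 1 ≤ φ p := by
      apply Nat.le_floor
      push_cast
      have := Nat.floor_le (hn q hq)
      linarith
    omega
  have hinj : Set.InjOn φ F := by
    intro p hp q hq heq
    by_contra hne
    rcases le_total (v q) (v p) with h | h
    · exact key p hp q hq hne h heq
    · exact key q hq p hp (Ne.symm hne) h heq.symm
  have himg : F.image φ ⊆ Finset.range (⌊L / δ⌋₊ + 1) := by
    intro n hn'
    obtain ⟨p, hp, rfl⟩ := Finset.mem_image.1 hn'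
    rw [Finset.mem_range, Nat.lt_succ_iff]
    apply Nat.floor_le_floor
    rw [div_le_div_iff_of_pos_right hδ]
    linarith [(h1 p hp).2]
  have hc := Finset.card_le_card himg
  rw [Finset.card_image_of_injOn hinj, Finset.card_range] at hc
  have h6 : ((⌊L / δ⌋₊ : ℕ) : ℝ) ≤ L / δ := Nat.floor_le (div_nonneg hL hδ.le)
  have h7 : (F.card : ℝ) ≤ (⌊L / δ⌋₊ + 1 : ℕ) := by exact_mod_cast hc
  push_cast at h7
  linarith

theorem frac_ne {p q : ℕ × ℕ} (hq1 : 0 < q.1)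
    (hpc : Nat.Coprime p.1 p.2) (hqc : Nat.Coprime q.1 q.2) (h : p.1 * q.2 = q.1 * p.2) : p = q := by
  have h1 : p.1 ∣ q.1 * p.2 := ⟨q.2, h.symm⟩
  have h2 : p.1 ∣ q.1 := hpc.dvd_of_dvd_mul_right h1
  have h3 : q.1 ∣ p.1 * q.2 := ⟨p.2, h⟩
  have h4 : q.1 ∣ p.1 := hqc.dvd_of_dvd_mul_right h3
  have h5 : p.1 = q.1 := Nat.dvd_antisymm h2 h4
  rw [h5] at h
  have h6 : q.2 = p.2 := Nat.eq_of_mul_eq_mul_left hq1 h
  exact Prod.ext h5 h6.symm

/-- Lemma 1: reduced fractions in a short interval -/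
theorem frac_card {z k : ℝ} (hz : 0 < z) (hk : 0 ≤ k) {A1 A2 : ℕ} (F : Finset (ℕ × ℕ))
    (hF : ∀ p ∈ F, 0 < p.1 ∧ 0 < p.2 ∧ p.1 ≤ A1 ∧ p.2 ≤ A2 ∧ Nat.Coprime p.1 p.2 ∧
      z ≤ (p.1 : ℝ) / p.2 ∧ (p.1 : ℝ) / p.2 ≤ z * (1 + k)) :
    (F.card : ℝ) ≤ 1 + k * (A1 * A2) := by
  rcases F.eq_empty_or_nonempty with rfl | ⟨p0, hp0⟩
  · simp only [Finset.card_empty, Nat.cast_zero]
    positivity
  have h0 := hF p0 hp0
  have hA1 : (0 : ℝ) < A1 := by exact_mod_cast lt_of_lt_of_le h0.1 h0.2.2.1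
  have hA2 : (0 : ℝ) < A2 := by exact_mod_cast lt_of_lt_of_le h0.2.1 h0.2.2.2.1
  have hAA : (0 : ℝ) < A1 * A2 := mul_pos hA1 hA2
  have h := sep_card F (fun p => (p.1 : ℝ) / p.2) (z := z) (L := z * k) (δ := z / (A1 * A2))
    (by positivity) (by positivity) (fun p hp => ⟨(hF p hp).2.2.2.2.2.1, by
      have := (hF p hp).2.2.2.2.2.2
      linarith⟩) ?_
  · have e : z * k / (z / (A1 * A2)) = k * (A1 * A2) := by field_simp
    rwa [e] at h
  · intro a ha b hb hab hle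
    obtain ⟨ha1, ha2, haA1, haA2, hac, haz, haz'⟩ := hF a ha
    obtain ⟨hb1, hb2, hbA1, hbA2, hbc, hbz, hbz'⟩ := hF b hb
    have ha1' : (0 : ℝ) < a.1 := by exact_mod_cast ha1
    have ha2' : (0 : ℝ) < a.2 := by exact_mod_cast ha2
    have hb1' : (0 : ℝ) < b.1 := by exact_mod_cast hb1
    have hb2' : (0 : ℝ) < b.2 := by exact_mod_cast hb2
    have hle' : (b.1 : ℝ) * a.2 ≤ a.1 * b.2 := by
      have := (div_le_div_iff₀ hb2' ha2').1 hle
      linarith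
    have hlt : b.1 * a.2 < a.1 * b.2 := by
      refine lt_of_le_of_ne (by exact_mod_cast hle') fun h => hab ?_
      exact frac_ne hb1 hac hbc h.symm
    have h1 : (b.1 : ℝ) * a.2 + 1 ≤ a.1 * b.2 := by exact_mod_cast hlt
    have h2 : 1 / ((a.2 : ℝ) * b.2) ≤ (a.1 : ℝ) / a.2 - (b.1 : ℝ) / b.2 := by
      rw [div_sub_div _ _ ha2'.ne' hb2'.ne', div_le_div_iff_of_pos_right (by positivity)]
      linarith
    have h3 : z / (A1 * A2) ≤ 1 / ((a.2 : ℝ) * b.2) := by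
      rw [div_le_div_iff₀ hAA (by positivity)]
      have h4 : z * (a.2 * b.2) ≤ a.1 * b.2 := by
        have h5 : z * a.2 ≤ a.1 := (le_div_iff₀ ha2').1 haz
        nlinarith
      have h6 : (a.1 : ℝ) * b.2 ≤ A1 * A2 := by
        have h7 : (a.1 : ℝ) ≤ A1 := by exact_mod_cast haA1
        have h8 : (b.2 : ℝ) ≤ A2 := by exact_mod_cast hbA2
        gcongr
      linarith
    show (b.1 : ℝ) / b.2 + z / (A1 * A2) ≤ (a.1 : ℝ) / a.2
    linarith

/-- `S` is covered by `M` intervals of relative length `k` -/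
def Cov (S : Set ℝ) (M k : ℝ) : Prop :=
  ∃ T : Finset ℝ, (T.card : ℝ) ≤ M ∧ (∀ z ∈ T, 0 < z) ∧
    ∀ y ∈ S, ∃ z ∈ T, z ≤ y ∧ y ≤ z * (1 + k)

open Classical in
/-- the pairs of coprime integers `a ~ D`, `b ~ E` with `x a / b ∈ S` -/
noncomputable def NN (S : Set ℝ) (x : ℝ) (D E : ℕ) : Finset (ℕ × ℕ) :=
  ((Finset.Ico D (2 * D)) ×ˢ (Finset.Ico E (2 * E))).filter
    fun p => Nat.Coprime p.1 p.2 ∧ x * p.1 / p.2 ∈ S

theorem mem_NN {S : Set ℝ} {x : ℝ} {D E : ℕ} {p : ℕ × ℕ} : p ∈ NN S x D E ↔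
    (D ≤ p.1 ∧ p.1 < 2 * D) ∧ (E ≤ p.2 ∧ p.2 < 2 * E) ∧ Nat.Coprime p.1 p.2 ∧
      x * p.1 / p.2 ∈ S := by
  unfold NN
  simp only [Finset.mem_filter, Finset.mem_product, Finset.mem_Ico]
  tauto

/-- Lemma 2 -/
theorem NN_card {S : Set ℝ} {M k : ℝ} (hS : Cov S M k) (hk : 0 ≤ k) {x : ℝ} (hx : 0 < x)
    {D E : ℕ} (hD : 0 < D) (hE : 0 < E) :
    ((NN S x D E).card : ℝ) ≤ M * (1 + k * (4 * D * E)) := by
  classical
  obtain ⟨T, hT, hT0, hT'⟩ := hS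
  have hsub : NN S x D E ⊆ T.biUnion fun z => (NN S x D E).filter
      fun p => z ≤ x * p.1 / p.2 ∧ x * p.1 / p.2 ≤ z * (1 + k) := by
    intro p hp
    obtain ⟨z, hz, h1, h2⟩ := hT' _ (mem_NN.1 hp).2.2.2
    exact Finset.mem_biUnion.2 ⟨z, hz, Finset.mem_filter.2 ⟨hp, h1, h2⟩⟩
  have h1 : ((NN S x D E).card : ℝ) ≤ ∑ z ∈ T, (((NN S x D E).filter
      fun p => z ≤ x * p.1 / p.2 ∧ x * p.1 / p.2 ≤ z * (1 + k)).card : ℝ) := by
    have := (Finset.card_le_card hsub).trans Finset.card_biUnion_le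
    exact_mod_cast this
  have h2 : ∀ z ∈ T, (((NN S x D E).filter
      fun p => z ≤ x * p.1 / p.2 ∧ x * p.1 / p.2 ≤ z * (1 + k)).card : ℝ) ≤
      1 + k * (4 * D * E) := by
    intro z hz
    have h3 := frac_card (z := z / x) (k := k) (div_pos (hT0 z hz) hx) hk (A1 := 2 * D)
      (A2 := 2 * E) ((NN S x D E).filter
      fun p => z ≤ x * p.1 / p.2 ∧ x * p.1 / p.2 ≤ z * (1 + k)) ?_
    · refine h3.trans (le_of_eq ?_)
      push_cast
      ring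
    · intro p hp
      obtain ⟨hp1, hp2, hp3⟩ := Finset.mem_filter.1 hp
      obtain ⟨⟨a1, a2⟩, ⟨b1, b2⟩, hc, -⟩ := mem_NN.1 hp1
      refine ⟨by omega, by omega, by omega, by omega, hc, ?_, ?_⟩
      · rw [div_le_iff₀ hx]
        calc z ≤ x * p.1 / p.2 := hp2
          _ = (p.1 : ℝ) / p.2 * x := by ring
      · have h4 : (p.1 : ℝ) / p.2 * x ≤ z * (1 + k) := by
          calc (p.1 : ℝ) / p.2 * x = x * p.1 / p.2 := by ring
            _ ≤ z * (1 + k) := hp3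
        rw [← le_div_iff₀ hx] at h4
        refine h4.trans (le_of_eq ?_)
        ring
  calc ((NN S x D E).card : ℝ) ≤ ∑ z ∈ T, (1 + k * (4 * D * E) : ℝ) :=
        h1.trans (Finset.sum_le_sum h2)
    _ = T.card * (1 + k * (4 * D * E)) := by rw [Finset.sum_const, nsmul_eq_mul]
    _ ≤ M * (1 + k * (4 * D * E)) := by
        have : (0 : ℝ) ≤ 1 + k * (4 * D * E) := by positivity
        exact mul_le_mul_of_nonneg_right hT this

/-- the set of reduced fractions in a window, as a finite set -/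
theorem fracSet_card {z k : ℝ} (hz : 0 < z) (hk : 0 ≤ k) {A1 A2 : ℕ} (F : Finset (ℕ × ℕ × ℕ))
    (hF : ∀ p ∈ F, 0 < p.1 ∧ 0 < p.2.1 ∧ p.1 ≤ A1 ∧ p.2.1 ≤ A2 ∧ Nat.Coprime p.1 p.2.1 ∧
      z ≤ (p.1 : ℝ) / p.2.1 ∧ (p.1 : ℝ) / p.2.1 ≤ z * (1 + k) ∧ p.2.2.Prime ∧ p.2.2 ∣ p.2.1) :
    (F.card : ℝ) ≤ (1 + k * (A1 * A2)) * Nat.log 2 A2 := by
  classical
  set G : Finset (ℕ × ℕ) := F.image fun p => (p.1, p.2.1) with hG
  have hGc := frac_card hz hk (A1 := A1) (A2 := A2) G (by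
    intro p hp
    obtain ⟨q, hq, rfl⟩ := Finset.mem_image.1 hp
    obtain ⟨h1, h2, h3, h4, h5, h6, h7, h8, h9⟩ := hF q hq
    exact ⟨h1, h2, h3, h4, h5, h6, h7⟩)
  have hmap : ∀ p ∈ F, (p.1, p.2.1) ∈ G := fun p hp => Finset.mem_image.2 ⟨p, hp, rfl⟩
  have h1 := Finset.card_eq_sum_card_fiberwise (f := fun p : ℕ × ℕ × ℕ => (p.1, p.2.1)) hmap
  have h2 : ∀ g ∈ G, (F.filter fun p => (p.1, p.2.1) = g).card ≤ Nat.log 2 A2 := by
    intro g hg
    obtain ⟨q, hq, rfl⟩ := Finset.mem_image.1 hg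
    obtain ⟨_, hv, _, hv2, _⟩ := hF q hq
    have h3 : (F.filter fun p => (p.1, p.2.1) = (q.1, q.2.1)).card ≤ (q.2.1.primeFactors).card := by
      refine Finset.card_le_card_of_injOn (fun p => p.2.2) ?_ ?_
      · intro p hp
        have hp' := Finset.mem_filter.1 (Finset.mem_coe.1 hp)
        obtain ⟨_, _, _, _, _, _, _, h8, h9⟩ := hF p hp'.1
        have e : p.2.1 = q.2.1 := (Prod.ext_iff.1 hp'.2).2
        exact Finset.mem_coe.2 (Nat.mem_primeFactors.2 ⟨h8, e ▸ h9, by omega⟩)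
      · intro p hp p' hp' hpp
        have h5 := (Finset.mem_filter.1 (Finset.mem_coe.1 hp)).2
        have h6 := (Finset.mem_filter.1 (Finset.mem_coe.1 hp')).2
        have e1 : p.1 = p'.1 := (Prod.ext_iff.1 (h5.trans h6.symm)).1
        have e2 : p.2.1 = p'.2.1 := (Prod.ext_iff.1 (h5.trans h6.symm)).2
        exact Prod.ext e1 (Prod.ext e2 hpp)
    refine h3.trans ?_
    have h4 : 2 ^ (q.2.1.primeFactors).card ≤ A2 := by
      calc 2 ^ (q.2.1.primeFactors).card = ∏ _p ∈ q.2.1.primeFactors, 2 := by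
            rw [Finset.prod_const]
        _ ≤ ∏ p ∈ q.2.1.primeFactors, p :=
            Finset.prod_le_prod' fun p hp => (Nat.prime_of_mem_primeFactors hp).two_le
        _ ≤ q.2.1 := Nat.le_of_dvd hv (Nat.prod_primeFactors_dvd _)
        _ ≤ A2 := hv2
    exact Nat.le_log_of_pow_le (by norm_num) h4
  have h3 : (F.card : ℝ) ≤ G.card * Nat.log 2 A2 := by
    rw [h1]
    push_cast
    calc (∑ g ∈ G, ((F.filter fun p => (p.1, p.2.1) = g).card : ℝ)) ≤ ∑ _g ∈ G, (Nat.log 2 A2 : ℝ) :=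
          Finset.sum_le_sum fun g hg => by exact_mod_cast h2 g hg
      _ = G.card * Nat.log 2 A2 := by rw [Finset.sum_const, nsmul_eq_mul]
  calc (F.card : ℝ) ≤ G.card * Nat.log 2 A2 := h3
    _ ≤ (1 + k * (A1 * A2)) * Nat.log 2 A2 := by gcongr

end Pool.Agent.Helper18.KS3
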