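import Pool.Agent.Helper18.KS3.Frac

/-!
# KS construction, Part III: counting rich members of a star (fact (*) of Lemma 7)
-/

set_option autoImplicit false

open Finset

namespace Pool.Agent.Helper18.KS3

/-- integers `m` with `x / m` in `S` -/
theorem int_card {S : Set ℝ} {M k : ℝ} (hS : Cov S M k) (hk : 0 ≤ k) {x : ℝ} (hx : 0 < x)
    {A : ℕ} (G : Finset ℕ) (hG : ∀ m ∈ G, 0 < m ∧ m ≤ A ∧ x / m ∈ S) :
    (G.card : ℝ) ≤ M * (1 + k * A) := by
  classical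
  obtain ⟨T, hT, hT0, hT'⟩ := hS
  have hsub : G ⊆ T.biUnion fun z => G.filter fun m => z ≤ x / (m : ℝ) ∧ x / (m : ℝ) ≤ z * (1 + k) := by
    intro m hm
    obtain ⟨z, hz, h1, h2⟩ := hT' _ (hG m hm).2.2
    exact Finset.mem_biUnion.2 ⟨z, hz, Finset.mem_filter.2 ⟨hm, h1, h2⟩⟩
  have h1 : (G.card : ℝ) ≤ ∑ z ∈ T, ((G.filter
      fun m : ℕ => z ≤ x / (m : ℝ) ∧ x / (m : ℝ) ≤ z * (1 + k)).card : ℝ) := by
    have := (Finset.card_le_card hsub).trans Finset.card_biUnion_le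
    exact_mod_cast this
  have h2 : ∀ z ∈ T, ((G.filter
      fun m : ℕ => z ≤ x / (m : ℝ) ∧ x / (m : ℝ) ≤ z * (1 + k)).card : ℝ) ≤ 1 + k * A := by
    intro z hz
    set Gz := G.filter fun m : ℕ => z ≤ x / (m : ℝ) ∧ x / (m : ℝ) ≤ z * (1 + k) with hGz
    have h3 := frac_card (z := z / x) (k := k) (div_pos (hT0 z hz) hx) hk (A1 := 1)
      (A2 := A) (Gz.image fun m => (1, m)) ?_
    · rw [Finset.card_image_of_injective _ (fun a b hab => (Prod.ext_iff.1 hab).2)] at h3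
      simpa using h3
    · intro p hp
      obtain ⟨m, hm, rfl⟩ := Finset.mem_image.1 hp
      obtain ⟨hm1, h4, h5⟩ := Finset.mem_filter.1 hm
      obtain ⟨m0, mA, -⟩ := hG m hm1
      have m0' : (0 : ℝ) < m := by exact_mod_cast m0
      refine ⟨Nat.one_pos, m0, le_rfl, mA, Nat.coprime_one_left _, ?_, ?_⟩
      · rw [div_le_iff₀ hx]
        calc z ≤ x / m := h4
          _ = ((1 : ℕ) : ℝ) / m * x := by push_cast; ring
      · have h6 : ((1 : ℕ) : ℝ) / m * x ≤ z * (1 + k) := by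
          calc ((1 : ℕ) : ℝ) / m * x = x / m := by push_cast; ring
            _ ≤ z * (1 + k) := h5
        rw [← le_div_iff₀ hx] at h6
        refine h6.trans (le_of_eq ?_)
        ring
  calc (G.card : ℝ) ≤ ∑ _z ∈ T, (1 + k * A : ℝ) := h1.trans (Finset.sum_le_sum h2)
    _ = T.card * (1 + k * A) := by rw [Finset.sum_const, nsmul_eq_mul]
    _ ≤ M * (1 + k * A) := mul_le_mul_of_nonneg_right hT (by positivity)

open Classical in
/-- fact (*): few `h` are such that `x / h` is rich -/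
theorem rich_few {S : Set ℝ} {M k : ℝ} (hS : Cov S M k) (hk : 0 ≤ k) {x : ℝ} (hx : 0 < x)
    {D E : ℕ} (hD : 0 < D) (hE : 0 < E) (G : Finset ℕ) (t τ : ℝ)
    (hG : ∀ h ∈ G, D ≤ h ∧ h < 2 * D)
    (hN : ∀ h ∈ G, t ≤ (((Finset.Ico E (2 * E)).filter
      fun b : ℕ => x / ((h : ℝ) * b) ∈ S).card : ℝ))
    (hτ : ∀ m : ℕ, 0 < m → m ≤ 4 * D * E → (m.divisors.card : ℝ) ≤ τ) :
    (G.card : ℝ) * t ≤ M * (1 + k * (4 * D * E : ℕ)) * τ := by
  set P : ℕ → Finset ℕ := fun h => (Finset.Ico E (2 * E)).filter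
      fun b : ℕ => x / ((h : ℝ) * b) ∈ S with hP
  set Q : Finset ((_ : ℕ) × ℕ) := G.sigma P with hQ
  have h1 : (G.card : ℝ) * t ≤ Q.card := by
    rw [hQ, Finset.card_sigma]
    push_cast
    calc (G.card : ℝ) * t = ∑ _h ∈ G, t := by rw [Finset.sum_const, nsmul_eq_mul]
      _ ≤ _ := Finset.sum_le_sum hN
  set R : Finset ℕ := Q.image fun q => q.1 * q.2 with hR
  have fact : ∀ q ∈ Q, 0 < q.1 ∧ 0 < q.2 ∧ q.1 * q.2 ≤ 4 * D * E ∧
      x / ((q.1 * q.2 : ℕ) : ℝ) ∈ S := by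
    intro q hq
    obtain ⟨h2, h3⟩ := Finset.mem_sigma.1 hq
    obtain ⟨h4, h5⟩ := Finset.mem_filter.1 h3
    obtain ⟨h6, h7⟩ := Finset.mem_Ico.1 h4
    obtain ⟨h8, h9⟩ := hG _ h2
    refine ⟨by omega, by omega, ?_, ?_⟩
    · calc q.1 * q.2 ≤ (2 * D) * (2 * E) := Nat.mul_le_mul h9.le h7.le
        _ = 4 * D * E := by ring
    · push_cast
      exact h5
  have h2 : (R.card : ℝ) ≤ M * (1 + k * (4 * D * E : ℕ)) := by
    refine int_card hS hk hx R fun m hm => ?_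
    obtain ⟨q, hq, rfl⟩ := Finset.mem_image.1 hm
    obtain ⟨f1, f2, f3, f4⟩ := fact q hq
    exact ⟨Nat.mul_pos f1 f2, f3, f4⟩
  have h3 : ∀ m ∈ R, ((Q.filter fun q => q.1 * q.2 = m).card : ℝ) ≤ τ := by
    intro m hm
    obtain ⟨q, hq, rfl⟩ := Finset.mem_image.1 hm
    obtain ⟨f1, f2, f3, f4⟩ := fact q hq
    refine le_trans ?_ (hτ _ (Nat.mul_pos f1 f2) f3)
    have h4 : (Q.filter fun q' => q'.1 * q'.2 = q.1 * q.2).card ≤ (q.1 * q.2).divisors.card := by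
      refine Finset.card_le_card_of_injOn (fun q' => q'.1) ?_ ?_
      · intro q' hq'
        obtain ⟨h5, h6⟩ := Finset.mem_filter.1 (Finset.mem_coe.1 hq')
        exact Finset.mem_coe.2 (Nat.mem_divisors.2 ⟨⟨q'.2, h6.symm⟩, (Nat.mul_pos f1 f2).ne'⟩)
      · rintro ⟨a, b⟩ ha ⟨a', b'⟩ ha' haa
        obtain ⟨h5, h6⟩ := Finset.mem_filter.1 (Finset.mem_coe.1 ha)
        obtain ⟨h7, h8⟩ := Finset.mem_filter.1 (Finset.mem_coe.1 ha')
        simp only at haa h6 h8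
        subst haa
        have h9 : b = b' := Nat.eq_of_mul_eq_mul_left (fact _ h5).1 (h6.trans h8.symm)
        subst h9
        rfl
    exact_mod_cast h4
  have h4 : (Q.card : ℝ) = ∑ m ∈ R, ((Q.filter fun q => q.1 * q.2 = m).card : ℝ) := by
    have := Finset.card_eq_sum_card_fiberwise (f := fun q : (_ : ℕ) × ℕ => q.1 * q.2) (s := Q)
      (t := R) (fun q hq => Finset.mem_image.2 ⟨q, hq, rfl⟩)
    exact_mod_cast this
  rcases Q.eq_empty_or_nonempty with h5 | ⟨q0, hq0⟩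
  · refine h1.trans ?_
    rw [h5]
    have hM : 0 ≤ M := by
      obtain ⟨T, hT, -⟩ := hS
      exact le_trans (by positivity) hT
    have hτ0 : 0 ≤ τ := le_trans (by positivity) (hτ 1 Nat.one_pos (by
      have := Nat.mul_pos hD hE
      nlinarith))
    simp only [Finset.card_empty, Nat.cast_zero]
    positivity
  · have hτ0 : 0 ≤ τ := by
      obtain ⟨f1, f2, f3, f4⟩ := fact q0 hq0
      exact le_trans (by positivity) (hτ _ (Nat.mul_pos f1 f2) f3)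
    calc (G.card : ℝ) * t ≤ Q.card := h1
      _ = ∑ m ∈ R, ((Q.filter fun q => q.1 * q.2 = m).card : ℝ) := h4
      _ ≤ ∑ _m ∈ R, τ := Finset.sum_le_sum h3
      _ = R.card * τ := by rw [Finset.sum_const, nsmul_eq_mul]
      _ ≤ M * (1 + k * (4 * D * E : ℕ)) * τ := mul_le_mul_of_nonneg_right h2 hτ0

end Pool.Agent.Helper18.KS3
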